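import Mathlib

set_option autoImplicit false

namespace Pool.Agent.Results.MP_150040_al.NotSubdirect

universe u v

/-- `R` (associative, identity not assumed) is right primitive: it has a faithful simple right
module `M`; the right action is written `act m r`. -/
def RightPrimitive (R : Type v) [NonUnitalRing R] : Prop :=
  ∃ (M : Type v) (_ : AddCommGroup M) (act : M →+ R →+ M),
    (∀ m r s, act (act m r) s = act m (r * s)) ∧
    (∃ m r, act m r ≠ 0) ∧
    (∀ N : AddSubgroup M, (∀ m ∈ N, ∀ r, act m r ∈ N) → N = ⊥ ∨ N = ⊤) ∧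
    (∀ r, (∀ m, act m r = 0) → r = 0)

/-- `S` is subdirectly indecomposable: some nonzero element lies in every nonzero two-sided
ideal. -/
def SubdirectlyIndecomposable (S : Type v) [NonUnitalRing S] : Prop :=
  ∃ a : S, a ≠ 0 ∧ ∀ I : TwoSidedIdeal S, I ≠ ⊥ → a ∈ I

section General

variable {S : Type} [Ring S] {M : Type} [AddCommGroup M] (ρ : S →+* AddMonoid.End M) (x : S)

/-- right action of the opposite ring -/
def actOp : M →+ Sᵐᵒᵖ →+ M where
  toFun m :=
    { toFun := fun r => ρ r.unop m
      map_zero' := by simp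
      map_add' := fun r s => by simp; rfl }
  map_zero' := by ext r; simp
  map_add' := fun m m' => by ext r; simp

theorem primitive_of
    (hsimple : ∀ N : AddSubgroup M, (∀ m ∈ N, ∀ s, ρ s m ∈ N) → N = ⊥ ∨ N = ⊤)
    (hpow : ∀ I : AddSubgroup S, (∀ a ∈ I, ∀ r, r * a ∈ I) → (∀ a ∈ I, ∀ r, a * r ∈ I) →
      (∃ a ∈ I, a ≠ 0) → ∃ n : ℕ, x ^ n ∈ I)
    (hact : ∀ n : ℕ, ρ (x ^ n) ≠ 0) : RightPrimitive Sᵐᵒᵖ := by
  refine ⟨M, inferInstance, actOp ρ, ?_, ?_, ?_, ?_⟩
  · intro m r s
    change ρ s.unop (ρ r.unop m) = ρ (s.unop * r.unop) m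
    rw [map_mul]; rfl
  · by_contra hc
    push Not at hc
    apply hact 0
    ext m
    exact hc m (MulOpposite.op (x ^ 0))
  · intro N hN
    apply hsimple N
    intro m hm s
    exact hN m hm (MulOpposite.op s)
  · intro r hr
    by_contra hne
    obtain ⟨n, hn⟩ := hpow (ρ : S →+ AddMonoid.End M).ker
      (by
        intro a ha r
        rw [AddMonoidHom.mem_ker] at ha ⊢
        change ρ (r * a) = 0
        change ρ a = 0 at ha
        rw [map_mul, ha, mul_zero])
      (by
        intro a ha r
        rw [AddMonoidHom.mem_ker] at ha ⊢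
        change ρ (a * r) = 0
        change ρ a = 0 at ha
        rw [map_mul, ha, zero_mul])
      ⟨r.unop, by
        rw [AddMonoidHom.mem_ker]
        ext m
        exact hr m, fun h => hne (MulOpposite.unop_injective h)⟩
    exact hact n hn

theorem normal_pow (hnorm : ∀ r, ∃ r', r * x = x * r') (n : ℕ) : ∀ r, ∃ r', r * x ^ n = x ^ n * r' := by
  induction n with
  | zero => intro r; exact ⟨r, by simp⟩
  | succ n ih =>
    intro r
    obtain ⟨r1, h1⟩ := ih r
    obtain ⟨r2, h2⟩ := hnorm r1
    refine ⟨r2, ?_⟩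
    rw [pow_succ, ← mul_assoc, h1, mul_assoc, h2, mul_assoc]

theorem main
    (hpow : ∀ I : AddSubgroup S, (∀ a ∈ I, ∀ r, r * a ∈ I) → (∀ a ∈ I, ∀ r, a * r ∈ I) →
      (∃ a ∈ I, a ≠ 0) → ∃ n : ℕ, x ^ n ∈ I)
    (hx : ∀ n, x ^ n ≠ 0)
    (hnorm : ∀ r, ∃ r', r * x = x * r')
    (hint : ∀ a, a ≠ 0 → ∃ n : ℕ, ∀ s, a ≠ x ^ n * s)
    (T : Type v) [NonUnitalRing T] (φ : Sᵐᵒᵖ →ₙ+* T) (hφ : Function.Surjective φ)
    (hT : SubdirectlyIndecomposable T) (hP : RightPrimitive T) : φ (MulOpposite.op x) = 0 := by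
  obtain ⟨a, ha, hI⟩ := hT
  by_cases hinj : ∀ r, φ r = 0 → r = 0
  · exfalso
    obtain ⟨r, rfl⟩ := hφ a
    have hr : r.unop ≠ 0 := by
      intro h
      apply ha
      have : r = 0 := MulOpposite.unop_injective h
      rw [this, map_zero]
    obtain ⟨n, hn⟩ := hint _ hr
    let J : TwoSidedIdeal T := TwoSidedIdeal.mk' {y | ∃ s, y = φ (MulOpposite.op (x ^ n * s))}
      ⟨0, by simp⟩
      (by
        rintro _ _ ⟨s, rfl⟩ ⟨t, rfl⟩
        refine ⟨s + t, ?_⟩
        rw [mul_add, MulOpposite.op_add, map_add])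
      (by
        rintro _ ⟨s, rfl⟩
        refine ⟨-s, ?_⟩
        rw [mul_neg, MulOpposite.op_neg, map_neg])
      (by
        rintro z _ ⟨s, rfl⟩
        obtain ⟨t, rfl⟩ := hφ z
        refine ⟨s * t.unop, ?_⟩
        rw [← map_mul, ← mul_assoc]
        congr 1)
      (by
        rintro _ z ⟨s, rfl⟩
        obtain ⟨t, rfl⟩ := hφ z
        obtain ⟨t', ht'⟩ := normal_pow x hnorm n t.unop
        refine ⟨t' * s, ?_⟩
        rw [← map_mul, ← mul_assoc, ← ht', mul_assoc]
        congr 1)
    have hJmem : ∀ y, y ∈ J ↔ ∃ s, y = φ (MulOpposite.op (x ^ n * s)) := by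
      intro y
      exact TwoSidedIdeal.mem_mk' _ _ _ _ _ _ _
    have hJ : J ≠ ⊥ := by
      intro h
      have h1 : φ (MulOpposite.op (x ^ n)) ∈ J := by
        rw [hJmem]; exact ⟨1, by rw [mul_one]⟩
      rw [h, TwoSidedIdeal.mem_bot] at h1
      exact hx n (MulOpposite.op_injective (hinj _ h1))
    obtain ⟨s, hs⟩ := (hJmem _).1 (hI J hJ)
    apply hn s
    have h2 : φ (r - MulOpposite.op (x ^ n * s)) = 0 := by rw [map_sub, hs, sub_self]
    have h3 := hinj _ h2
    rw [sub_eq_zero] at h3
    rw [h3]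
    rfl
  · push Not at hinj
    obtain ⟨r, hr, hr0⟩ := hinj
    let I : AddSubgroup S :=
      { carrier := {s | φ (MulOpposite.op s) = 0}
        zero_mem' := by simp
        add_mem' := by
          intro s t hs ht
          change φ (MulOpposite.op (s + t)) = 0
          rw [MulOpposite.op_add, map_add, hs, ht, add_zero]
        neg_mem' := by
          intro s hs
          change φ (MulOpposite.op (-s)) = 0
          rw [MulOpposite.op_neg, map_neg, hs, neg_zero] }
    obtain ⟨n, hn⟩ := hpow I
      (by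
        intro s hs t
        change φ (MulOpposite.op (t * s)) = 0
        change φ (MulOpposite.op s) = 0 at hs
        rw [MulOpposite.op_mul, map_mul, hs, zero_mul])
      (by
        intro s hs t
        change φ (MulOpposite.op (s * t)) = 0
        change φ (MulOpposite.op s) = 0 at hs
        rw [MulOpposite.op_mul, map_mul, hs, mul_zero])
      ⟨r.unop, hr, fun h => hr0 (MulOpposite.unop_injective h)⟩
    have hn' : φ (MulOpposite.op (x ^ n)) = 0 := hn
    obtain ⟨M, iM, act, hassoc, ⟨m0, r0, hmr⟩, hsim, hfaith⟩ := hP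
    -- the image of `x`
    set y : T := φ (MulOpposite.op x) with hy
    let N : AddSubgroup M := (AddMonoidHom.flip act y).range
    have hN : ∀ m ∈ N, ∀ r, act m r ∈ N := by
      rintro _ ⟨m, rfl⟩ r
      obtain ⟨t, rfl⟩ := hφ r
      obtain ⟨t', ht'⟩ := hnorm t.unop
      refine ⟨act m (φ (MulOpposite.op t')), ?_⟩
      change act (act m (φ (MulOpposite.op t'))) y = act (act m y) (φ t)
      rw [hassoc, hassoc, hy, ← map_mul, ← map_mul]
      congr 2
      exact MulOpposite.unop_injective ht'.symm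
    rcases hsim N hN with h | h
    · apply hfaith
      intro m
      have : act m y ∈ N := ⟨m, rfl⟩
      rw [h, AddSubgroup.mem_bot] at this
      exact this
    · exfalso
      -- every element is of the form `act m (φ (x^k))`
      have hk : ∀ k : ℕ, ∀ m : M, ∃ m', m = act m' (φ (MulOpposite.op (x ^ (k + 1)))) := by
        intro k
        induction k with
        | zero =>
          intro m
          have : m ∈ N := by rw [h]; trivial
          obtain ⟨m', hm'⟩ := this
          exact ⟨m', by rw [zero_add, pow_one]; exact hm'.symm⟩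
        | succ k ih =>
          intro m
          obtain ⟨m1, h1⟩ := ih m
          have : m1 ∈ N := by rw [h]; trivial
          obtain ⟨m2, h2⟩ := this
          refine ⟨m2, ?_⟩
          rw [h1, ← h2]
          change act (act m2 y) _ = _
          rw [hassoc, hy, ← map_mul, ← MulOpposite.op_mul, pow_succ x (k + 1)]
      obtain ⟨m', hm'⟩ := hk n m0
      have hz : φ (MulOpposite.op (x ^ (n + 1))) = 0 := by
        rw [pow_succ, MulOpposite.op_mul, map_mul, hn', mul_zero]
      rw [hz, map_zero] at hm'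
      apply hmr
      rw [hm']
      simp

end General

section Skew

/-- the ground field -/
abbrev K : Type := AlgebraicClosure (ZMod 2)

/-- `ofAdd n` acts as the `n`-th power of the Frobenius map -/
noncomputable instance actK : MulSemiringAction (Multiplicative ℕ) K :=
  MulSemiringAction.compHom K (powersHom (K →+* K) (frobenius K 2))

theorem smul_def' (g : Multiplicative ℕ) (a : K) : g • a = a ^ (2 ^ (Multiplicative.toAdd g)) := by
  change (powersHom (K →+* K) (frobenius K 2) g) a = _
  rw [powersHom_apply]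
  generalize Multiplicative.toAdd g = n
  induction n with
  | zero => simp
  | succ n ih =>
    rw [pow_succ', RingHom.mul_def, RingHom.comp_apply, ih, frobenius_def, ← pow_mul, pow_succ]

theorem exists_smul_ne {g h : Multiplicative ℕ} (hgh : g ≠ h) : ∃ a : K, g • a ≠ h • a := by
  by_contra hc
  push Not at hc
  simp only [smul_def'] at hc
  have : (Polynomial.X ^ (2 ^ (Multiplicative.toAdd g)) : Polynomial K) =
      Polynomial.X ^ (2 ^ (Multiplicative.toAdd h)) := by
    apply Polynomial.funext
    intro a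
    simp [hc a]
  have h2 := congrArg Polynomial.natDegree this
  rw [Polynomial.natDegree_X_pow, Polynomial.natDegree_X_pow] at h2
  have h3 := Nat.pow_right_injective (le_refl 2) h2
  exact hgh (Multiplicative.toAdd.injective h3)

/-- the skew polynomial ring -/
abbrev S0 : Type := SkewMonoidAlgebra K (Multiplicative ℕ)

open SkewMonoidAlgebra

/-- the variable -/
noncomputable def X0 : S0 := single (Multiplicative.ofAdd 1) 1

theorem X0_pow (n : ℕ) : X0 ^ n = single (Multiplicative.ofAdd n) 1 := by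
  induction n with
  | zero => rfl
  | succ n ih =>
    rw [pow_succ, ih, X0, single_mul_single, ← ofAdd_add]
    simp

/-- the action on `K` -/
noncomputable def rho : S0 →+* AddMonoid.End K :=
  liftNCRingHom (Module.toAddMonoidEnd K K) (DistribMulAction.toAddMonoidEnd (Multiplicative ℕ) K)
    (by
      intro a g
      ext b
      change (g • a) * (g • b) = g • (a * b)
      rw [smul_mul'])

theorem rho_single (g : Multiplicative ℕ) (a b : K) : rho (single g a) b = a * (g • b) := by
  unfold rho
  have h := liftNC_single (Module.toAddMonoidEnd K K : K →+ AddMonoid.End K)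
    (DistribMulAction.toAddMonoidEnd (Multiplicative ℕ) K) g a
  exact DFunLike.congr_fun h b

theorem hpow0 (I : AddSubgroup S0) (hl : ∀ a ∈ I, ∀ r, r * a ∈ I) (hr : ∀ a ∈ I, ∀ r, a * r ∈ I)
    (hne : ∃ a ∈ I, a ≠ 0) : ∃ n : ℕ, X0 ^ n ∈ I := by
  classical
  have hex : ∃ k : ℕ, ∃ a ∈ I, a ≠ 0 ∧ a.support.card = k := by
    obtain ⟨a, h1, h2⟩ := hne
    exact ⟨_, a, h1, h2, rfl⟩
  obtain ⟨f, hfI, hf0, hfk⟩ := Nat.find_spec hex
  have hmin : ∀ h ∈ I, h.support.card < f.support.card → h = 0 := by
    intro h hhI hlt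
    by_contra hh0
    rw [hfk] at hlt
    exact Nat.find_min hex hlt ⟨h, hhI, hh0, rfl⟩
  obtain ⟨g0, hg0⟩ : ∃ g0, f.coeff g0 ≠ 0 := by
    by_contra hc
    push Not at hc
    apply hf0
    refine SkewMonoidAlgebra.ext fun g => ?_
    rw [hc g]; rfl
  have hcomm : ∀ a : K, f * single 1 a - single 1 (g0 • a) * f = 0 := by
    intro a
    have hco : ∀ g, (f * single 1 a - single 1 (g0 • a) * f).coeff g =
        f.coeff g * (g • a) - (g0 • a) * f.coeff g := by
      intro g
      rw [coeff_sub, Finsupp.sub_apply, coeff_mul_single_one, coeff_single_one_mul]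
    apply hmin
    · exact I.sub_mem (hr f hfI _) (hl f hfI _)
    · apply Finset.card_lt_card
      rw [Finset.ssubset_iff_of_subset]
      · refine ⟨g0, ?_, ?_⟩
        · rw [mem_support_iff]; exact hg0
        · rw [mem_support_iff, hco, not_not]; ring
      · intro g hg
        rw [mem_support_iff] at hg ⊢
        intro h0
        apply hg
        rw [hco, h0]; ring
  have huniq : ∀ g, f.coeff g ≠ 0 → g = g0 := by
    intro g hg
    by_contra hne
    obtain ⟨a, ha⟩ := exists_smul_ne hne
    have h1 := hcomm a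
    have h2 : (f * single 1 a - single 1 (g0 • a) * f).coeff g = 0 := by rw [h1]; rfl
    rw [coeff_sub, Finsupp.sub_apply, coeff_mul_single_one, coeff_single_one_mul] at h2
    have h3 : f.coeff g * (g • a - g0 • a) = 0 := by linear_combination h2
    rcases mul_eq_zero.1 h3 with h4 | h4
    · exact hg h4
    · exact ha (sub_eq_zero.1 h4)
  refine ⟨Multiplicative.toAdd g0, ?_⟩
  have : X0 ^ (Multiplicative.toAdd g0) = single 1 (f.coeff g0)⁻¹ * f := by
    rw [X0_pow, ofAdd_toAdd]
    refine SkewMonoidAlgebra.ext fun g => ?_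
    rw [coeff_single_one_mul, coeff_single_apply]
    split_ifs with h
    · subst h
      rw [inv_mul_cancel₀ hg0]
    · by_cases hg : f.coeff g = 0
      · rw [hg, mul_zero]
      · exact absurd (huniq g hg).symm h
  rw [this]
  exact hl f hfI _

theorem hnorm0 : ∀ r : S0, ∃ r', r * X0 = X0 * r' := by
  intro r
  induction r using SkewMonoidAlgebra.induction_on with
  | zero => exact ⟨0, by simp⟩
  | single g a =>
    obtain ⟨b, hb⟩ := (PerfectRing.bijective_frobenius (R := K) (p := 2)).2 a
    refine ⟨single g b, ?_⟩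
    unfold X0
    rw [single_mul_single, single_mul_single, smul_one, mul_one, one_mul, mul_comm g, smul_def']
    rw [← hb, toAdd_ofAdd, pow_one]
  | add r s hr hs =>
    obtain ⟨r', hr'⟩ := hr
    obtain ⟨s', hs'⟩ := hs
    exact ⟨r' + s', by rw [add_mul, mul_add, hr', hs']⟩

theorem hint0 : ∀ a : S0, a ≠ 0 → ∃ n : ℕ, ∀ s, a ≠ X0 ^ n * s := by
  intro a ha
  obtain ⟨g0, hg0⟩ : ∃ g0, a.coeff g0 ≠ 0 := by
    by_contra hc
    push Not at hc
    apply ha
    refine SkewMonoidAlgebra.ext fun g => ?_
    rw [hc g]; rfl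
  refine ⟨Multiplicative.toAdd g0 + 1, ?_⟩
  intro s h
  apply hg0
  rw [h, X0_pow]
  apply coeff_single_mul_of_not_exists_mul
  rintro ⟨d, hd⟩
  have := congrArg Multiplicative.toAdd hd
  rw [toAdd_mul, toAdd_ofAdd] at this
  omega

theorem hx0 (n : ℕ) : X0 ^ n ≠ 0 := by
  rw [X0_pow]
  intro h
  rw [single_eq_zero] at h
  exact one_ne_zero h

theorem hact0 (n : ℕ) : rho (X0 ^ n) ≠ 0 := by
  intro h
  have h1 : rho (X0 ^ n) 1 = 0 := by rw [h]; rfl
  rw [X0_pow, rho_single, smul_one, mul_one] at h1
  exact one_ne_zero h1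

theorem hsimple0 : ∀ N : AddSubgroup K, (∀ m ∈ N, ∀ s, rho s m ∈ N) → N = ⊥ ∨ N = ⊤ := by
  intro N hN
  by_cases h : ∃ m ∈ N, m ≠ 0
  · right
    obtain ⟨m, hm, hm0⟩ := h
    rw [eq_top_iff]
    intro b _
    have := hN m hm (single 1 (b * m⁻¹))
    rwa [rho_single, one_smul, inv_mul_cancel_right₀ hm0] at this
  · left
    push Not at h
    rw [eq_bot_iff]
    intro m hm
    rw [AddSubgroup.mem_bot]
    exact h m hm

end Skew

/-- There is a ring (even with identity) which is right primitive and which is not a subdirect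
product of any family of rings that are all both subdirectly indecomposable and right
primitive. -/
theorem result : ∃ (R : Type) (_ : Ring R), RightPrimitive R ∧
    ∀ (ι : Type u) (T : ι → Type v) [∀ i, NonUnitalRing (T i)] (φ : ∀ i, R →ₙ+* T i),
      (∀ i, Function.Surjective (φ i)) → (∀ r, (∀ i, φ i r = 0) → r = 0) →
      ¬ ∀ i, SubdirectlyIndecomposable (T i) ∧ RightPrimitive (T i) := by
  refine ⟨S0ᵐᵒᵖ, inferInstance, primitive_of rho X0 hsimple0 hpow0 hact0, ?_⟩
  intro ι T _ φ hsurj hinj hall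
  have h : MulOpposite.op X0 = 0 := hinj _ fun i =>
    main X0 hpow0 hx0 hnorm0 hint0 (T i) (φ i) (hsurj i) (hall i).1 (hall i).2
  have h2 : X0 = 0 := MulOpposite.op_injective h
  exact hx0 1 (by rw [pow_one]; exact h2)

end Pool.Agent.Results.MP_150040_al.NotSubdirect
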